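import Mathlib

/-!
# A mixed cubic sum of Shapiro Catalan triangle numbers

With `B n k = (k / n) * binom (2 n) (n - k)`, we prove for all `n, m ≥ 1` the closed form of
`∑_{k=1}^{min n m} (B n k)^2 * B m k` asked for in the problem.

Proof: the sum satisfies a first order inhomogeneous recurrence in `m` (telescoping in `k` with an
explicit certificate), which is the recurrence of the right hand side in the form valid for `m ≤ n`;
a second telescoping identity (in `j`) identifies the two forms `m ≤ n` and `m ≥ n` of the right hand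
side.
-/

set_option autoImplicit false

namespace Pool.Agent.Results.MP_651eca_nt.MixedCubic

open Finset

/-- Shapiro's Catalan triangle numbers. -/
def B (n k : ℕ) : ℚ := (k : ℚ) / n * ((2 * n).choose (n - k) : ℚ)

/-- `c N k = binom (2N) (N+k)`. -/
def c (N k : ℕ) : ℚ := ((2 * N).choose (N + k) : ℚ)

/-- `h m k = binom (2m+1) (m+k)`. -/
def h (m k : ℕ) : ℚ := ((2 * m + 1).choose (m + k) : ℚ)

theorem choose_succ_q (a b : ℕ) (hb : b ≤ a) :
    ((a.choose (b + 1) : ℕ) : ℚ) * (b + 1) = (a.choose b : ℚ) * ((a : ℚ) - b) := by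
  have := Nat.choose_succ_right_eq a b
  have h2 : ((a.choose (b + 1) * (b + 1) : ℕ) : ℚ) = ((a.choose b * (a - b) : ℕ) : ℚ) := by
    rw [this]
  push_cast [Nat.cast_sub hb] at h2
  exact h2

theorem c_succ (N k : ℕ) : c N (k + 1) * ((N : ℚ) + k + 1) = c N k * ((N : ℚ) - k) := by
  unfold c
  by_cases hk : N + k ≤ 2 * N
  · have := choose_succ_q (2 * N) (N + k) hk
    push_cast at this
    rw [← add_assoc]
    linarith
  · have h1 : (2 * N).choose (N + k) = 0 := Nat.choose_eq_zero_of_lt (by omega)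
    have h2 : (2 * N).choose (N + (k + 1)) = 0 := Nat.choose_eq_zero_of_lt (by omega)
    rw [h1, h2]; simp

theorem h_succ (m k : ℕ) : h m (k + 1) * ((m : ℚ) + k + 1) = h m k * ((m : ℚ) + 1 - k) := by
  unfold h
  by_cases hk : m + k ≤ 2 * m + 1
  · have := choose_succ_q (2 * m + 1) (m + k) hk
    push_cast at this
    rw [← add_assoc]
    linarith
  · have h1 : (2 * m + 1).choose (m + k) = 0 := Nat.choose_eq_zero_of_lt (by omega)
    have h2 : (2 * m + 1).choose (m + (k + 1)) = 0 := Nat.choose_eq_zero_of_lt (by omega)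
    rw [h1, h2]; simp

/-- `(2m+1) binom(2m, m+k) = (m+1-k) binom(2m+1, m+k)`. -/
theorem c_h (m k : ℕ) : (2 * (m : ℚ) + 1) * c m k = ((m : ℚ) + 1 - k) * h m k := by
  unfold c h
  by_cases hk : m + k ≤ 2 * m + 1
  · have := Nat.add_one_mul_choose_eq (2 * m) (m + k)
    -- (2m+1) * C(2m, m+k) = C(2m+1, m+k+1) * (m+k+1)
    have h3 := choose_succ_q (2 * m + 1) (m + k) hk
    have h2 : (((2 * m + 1) * (2 * m).choose (m + k) : ℕ) : ℚ) =
        (((2 * m + 1).choose (m + k + 1) * (m + k + 1) : ℕ) : ℚ) := by rw [this]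
    push_cast at h2 h3
    linarith
  · have h1 : (2 * m + 1).choose (m + k) = 0 := Nat.choose_eq_zero_of_lt (by omega)
    have h2 : (2 * m).choose (m + k) = 0 := Nat.choose_eq_zero_of_lt (by omega)
    rw [h1, h2]; simp

/-- `(m+1+k) binom(2m+2, m+1+k) = (2m+2) binom(2m+1, m+k)`. -/
theorem c_h' (m k : ℕ) : ((m : ℚ) + 1 + k) * c (m + 1) k = (2 * (m : ℚ) + 2) * h m k := by
  unfold c h
  have := Nat.add_one_mul_choose_eq (2 * m + 1) (m + k)
  have h2 : (((2 * m + 1 + 1) * (2 * m + 1).choose (m + k) : ℕ) : ℚ) =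
      (((2 * m + 1 + 1).choose (m + k + 1) * (m + k + 1) : ℕ) : ℚ) := by rw [this]
  have e : 2 * m + 1 + 1 = 2 * (m + 1) := by omega
  have e2 : m + k + 1 = m + 1 + k := by omega
  rw [e, e2] at h2
  push_cast at h2
  linarith

theorem c_zero_pos (N : ℕ) : 0 < c N 0 := by
  unfold c
  exact_mod_cast Nat.choose_pos (by omega)

theorem c_zero_succ (m : ℕ) : ((m : ℚ) + 1) * c (m + 1) 0 = 2 * (2 * (m : ℚ) + 1) * c m 0 := by
  have h1 := c_h m 0
  have h2 := c_h' m 0
  push_cast at h1 h2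
  have hm : (0 : ℚ) < (m : ℚ) + 1 := by positivity
  have h3 : ((m : ℚ) + 1) * (((m : ℚ) + 1) * c (m + 1) 0) =
      ((m : ℚ) + 1) * (2 * (2 * (m : ℚ) + 1) * c m 0) := by
    have : ((m : ℚ) + 1) * c (m + 1) 0 = (2 * (m : ℚ) + 2) * h m 0 := by linarith
    rw [this]
    have : ((m : ℚ) + 1) * h m 0 = (2 * (m : ℚ) + 1) * c m 0 := by linarith
    calc ((m : ℚ) + 1) * ((2 * (m : ℚ) + 2) * h m 0)
        = (2 * (m : ℚ) + 2) * (((m : ℚ) + 1) * h m 0) := by ring
      _ = _ := by rw [this]; ring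
  exact mul_left_cancel₀ hm.ne' h3

/-- The basic sum, `∑_k k^3 binom(2n,n+k)^2 binom(2m,m+k)`. -/
def T (n m : ℕ) : ℚ := ∑ k ∈ range (n + 1), (k : ℚ) ^ 3 * c n k ^ 2 * c m k

/-- certificate -/
def G (n m k : ℕ) : ℚ :=
  ((n : ℚ) + 2 * (m + 1)) * ((k : ℚ) * (k - 1)) * (n + k) ^ 2 * c n k ^ 2 * h m k +
    (n : ℚ) * (m + 1) * (n + k) ^ 2 * c n k ^ 2 * h m k

/-- The termwise telescoping identity. -/
theorem telescoping (n m k : ℕ) :
    ((n : ℚ) + m + 1) ^ 2 * (n + 2 * m) * (k : ℚ) ^ 3 * c n k ^ 2 * c (m + 1) k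
      - 2 * (2 * m + 1) * (n + 2 * (m + 1)) * (m + 1) * ((k : ℚ) ^ 3 * c n k ^ 2 * c m k) =
      - ((m : ℚ) + 1) * (G n m (k + 1) - G n m k) := by
  have hc := c_succ n k
  have hh := h_succ m k
  have h1 := c_h m k
  have h2 := c_h' m k
  have hk1 : (0 : ℚ) < (m : ℚ) + 1 + k := by positivity
  have hn1 : (0 : ℚ) < (n : ℚ) + k + 1 := by positivity
  have e1 : c (m + 1) k = (2 * (m : ℚ) + 2) * h m k / ((m : ℚ) + 1 + k) := by
    field_simp; linarith
  have e2 : (2 * (m : ℚ) + 1) * c m k = ((m : ℚ) + 1 - k) * h m k := h1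
  have e3 : ((n : ℚ) + (k + 1)) ^ 2 * c n (k + 1) ^ 2 = (c n k * ((n : ℚ) - k)) ^ 2 := by
    rw [← hc]; ring
  have e4 : h m (k + 1) = h m k * ((m : ℚ) + 1 - k) / ((m : ℚ) + 1 + k) := by
    field_simp; linarith
  have hG : G n m (k + 1) =
      (((n : ℚ) + 2 * (m + 1)) * (((k : ℚ) + 1) * k) + (n : ℚ) * (m + 1)) *
        ((c n k * ((n : ℚ) - k)) ^ 2) * h m (k + 1) := by
    unfold G
    rw [← e3]
    push_cast
    ring
  rw [hG, e1, e4]
  unfold G
  have e5 : 2 * (2 * (m : ℚ) + 1) * (n + 2 * (m + 1)) * (m + 1) * ((k : ℚ) ^ 3 * c n k ^ 2 * c m k) =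
      2 * (n + 2 * (m + 1)) * (m + 1) * ((k : ℚ) ^ 3 * c n k ^ 2 * (((m : ℚ) + 1 - k) * h m k)) := by
    rw [← e2]; ring
  rw [e5]
  field_simp
  ring

/-- First order recurrence for `T n m` in `m`. -/
theorem T_rec (n m : ℕ) :
    ((n : ℚ) + m + 1) ^ 2 * (n + 2 * m) * T n (m + 1)
      - 2 * (2 * m + 1) * (n + 2 * (m + 1)) * (m + 1) * T n m =
      (m + 1) * (2 * m + 1) * (n : ℚ) ^ 3 * c n 0 ^ 2 * c m 0 := by
  have hsum : ∑ k ∈ range (n + 1), (((n : ℚ) + m + 1) ^ 2 * (n + 2 * m) * (k : ℚ) ^ 3 * c n k ^ 2 * c (m + 1) k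
      - 2 * (2 * m + 1) * (n + 2 * (m + 1)) * (m + 1) * ((k : ℚ) ^ 3 * c n k ^ 2 * c m k)) =
      - ((m : ℚ) + 1) * (G n m (n + 1) - G n m 0) := by
    rw [← Finset.sum_range_sub (fun k => G n m k), Finset.mul_sum]
    exact Finset.sum_congr rfl fun k _ => telescoping n m k
  have hG1 : G n m (n + 1) = 0 := by
    have : c n (n + 1) = 0 := by
      unfold c
      rw [Nat.choose_eq_zero_of_lt (by omega)]; simp
    unfold G
    rw [this]; ring
  have hG0 : ((m : ℚ) + 1) * G n m 0 = (m + 1) * (2 * m + 1) * (n : ℚ) ^ 3 * c n 0 ^ 2 * c m 0 := by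
    have h1 := c_h m 0
    push_cast at h1
    unfold G
    push_cast
    have : ((m : ℚ) + 1) * h m 0 = (2 * (m : ℚ) + 1) * c m 0 := by linarith
    calc _ = ((m : ℚ) + 1) * ((n : ℚ) ^ 3 * c n 0 ^ 2) * (((m : ℚ) + 1) * h m 0) := by ring
      _ = _ := by rw [this]; ring
  rw [hG1] at hsum
  rw [Finset.sum_sub_distrib, ← Finset.mul_sum] at hsum
  have e : ∑ k ∈ range (n + 1), ((n : ℚ) + m + 1) ^ 2 * (n + 2 * m) * (k : ℚ) ^ 3 * c n k ^ 2 * c (m + 1) k =
      ((n : ℚ) + m + 1) ^ 2 * (n + 2 * m) * T n (m + 1) := by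
    unfold T
    rw [Finset.mul_sum]
    exact Finset.sum_congr rfl fun k _ => by ring
  rw [e] at hsum
  unfold T at hsum ⊢
  linarith

/-- `binom (n+m) n` -/
def b (n m : ℕ) : ℚ := ((n + m).choose n : ℚ)

theorem b_pos (n m : ℕ) : 0 < b n m := by
  unfold b
  exact_mod_cast Nat.choose_pos (by omega)

theorem b_succ (n m : ℕ) : b n (m + 1) * ((m : ℚ) + 1) = b n m * ((n : ℚ) + m + 1) := by
  unfold b
  have h1 := Nat.choose_symm_add (a := n) (b := m)
  have h2 := Nat.choose_symm_add (a := n) (b := m + 1)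
  have h3 := Nat.add_one_mul_choose_eq (n + m) m
  rw [h1, h2]
  have h4 : (((n + m + 1) * (n + m).choose m : ℕ) : ℚ) =
      (((n + m + 1).choose (m + 1) * (m + 1) : ℕ) : ℚ) := by rw [h3]
  push_cast at h4
  rw [← add_assoc]
  linarith

/-- `binom (n+m) (n-1)` -/
def b' (n m : ℕ) : ℚ := ((n + m).choose (n - 1) : ℚ)

theorem b'_eq (n m : ℕ) (hn : 1 ≤ n) : b' n m * ((m : ℚ) + 1) = b n m * n := by
  unfold b' b
  obtain ⟨p, rfl⟩ : ∃ p, n = p + 1 := ⟨n - 1, by omega⟩
  have h := choose_succ_q (p + 1 + m) p (by omega)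
  push_cast at h
  simp only [Nat.add_sub_cancel]
  push_cast
  linarith

/-- the sum in the form `m ≤ n` -/
def U (n m : ℕ) : ℚ := ∑ j ∈ range m, b n j * b' n j

theorem U_succ (n m : ℕ) : U n (m + 1) = U n m + b n m * b' n m := by
  unfold U
  rw [Finset.sum_range_succ]

/-- The closed form in the form `m ≤ n`, valid for all `m ≥ 1`. -/
theorem T_closed (n : ℕ) (hn : 1 ≤ n) (m : ℕ) (hm : 1 ≤ m) :
    2 * T n m = (n : ℚ) ^ 2 * m * c n 0 ^ 2 * c m 0 *
      (1 - ((n : ℚ) + 2 * m) / m * (b n m)⁻¹ ^ 2 * U n m) := by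
  have hnq : (0 : ℚ) < n := by exact_mod_cast hn
  induction m, hm using Nat.le_induction with
  | base =>
    have hT : T n 1 = c n 1 ^ 2 := by
      unfold T
      rw [Finset.sum_eq_single 1]
      · have : c 1 1 = 1 := by unfold c; norm_num
        rw [this]; push_cast; ring
      · intro k _ hk
        rcases Nat.eq_zero_or_pos k with h0 | h0
        · subst h0; simp
        · have : c 1 k = 0 := by
            unfold c
            rw [Nat.choose_eq_zero_of_lt (by omega)]; simp
          rw [this]; ring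
      · intro h
        exfalso; apply h; rw [Finset.mem_range]; omega
    have hc1 := c_succ n 0
    have hb1 : b n 1 = n + 1 := by
      unfold b
      rw [Nat.choose_symm_add, Nat.choose_one_right]; push_cast; ring
    have hU : U n 1 = n := by
      have h := b'_eq n 0 hn
      have hb0 : b n 0 = 1 := by unfold b; simp
      rw [hb0] at h
      unfold U
      rw [Finset.sum_range_one, hb0]
      push_cast at h ⊢
      linarith
    have hc10 : c 1 0 = 2 := by unfold c; norm_num
    have hc2 : c n 1 = c n 0 * n / (n + 1) := by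
      field_simp
      push_cast at hc1
      linarith
    rw [hT, hb1, hU, hc10, hc2]
    push_cast
    field_simp
    ring
  | succ m hm ih =>
    have hmq : (0 : ℚ) < m := by exact_mod_cast hm
    have hrec := T_rec n m
    have hb := b_succ n m
    have hb' := b'_eq n m hn
    have hbp := b_pos n m
    have hc := c_zero_succ m
    rw [U_succ]
    have e1 : b n (m + 1) = b n m * ((n : ℚ) + m + 1) / (m + 1) := by
      field_simp; linarith
    have e2 : b' n m = b n m * n / (m + 1) := by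
      field_simp; linarith
    have e3 : c (m + 1) 0 = 2 * (2 * (m : ℚ) + 1) * c m 0 / (m + 1) := by
      field_simp; linarith
    have e4 : 2 * T n (m + 1) = (2 * (2 * m + 1) * (n + 2 * (m + 1)) * (m + 1) * (2 * T n m) +
        2 * ((m + 1) * (2 * m + 1) * (n : ℚ) ^ 3 * c n 0 ^ 2 * c m 0)) /
        (((n : ℚ) + m + 1) ^ 2 * (n + 2 * m)) := by
      have : (0 : ℚ) < ((n : ℚ) + m + 1) ^ 2 * (n + 2 * m) := by positivity
      rw [eq_div_iff this.ne']
      linarith
    rw [e4, ih, e1, e2, e3]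
    push_cast
    have hn2m : (n : ℚ) + 2 * m ≠ 0 := by positivity
    have hnm : (n : ℚ) + m + 1 ≠ 0 := by positivity
    field_simp
    ring

/-- the sum in the form `m ≥ n` -/
def W (n m : ℕ) : ℚ := ∑ j ∈ range n, b m j * b' n j

theorem W_rec (n m : ℕ) (hn : 1 ≤ n) :
    ((n : ℚ) + m + 1) * W n (m + 1) - m * W n m = (n : ℚ) ^ 2 * b n n * b m n / (m + 1) := by
  have hterm : ∀ j : ℕ, ((n : ℚ) + m + 1) * (b (m + 1) j * b' n j) - m * (b m j * b' n j) =
      1 / ((m : ℚ) + 1) * ((((j + 1 : ℕ) : ℚ) * ((j + 1 : ℕ) + 1) * (b m (j + 1) * b' n (j + 1))) -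
        ((j : ℚ) * (j + 1) * (b m j * b' n j))) := by
    intro j
    have h1 := b_succ m j
    have h2 := b_succ n j
    have h3 := b'_eq n j hn
    have h4 := b'_eq n (j + 1) hn
    have h5 : b (m + 1) j = b m j * ((m : ℚ) + j + 1) / (m + 1) := by
      -- binom(m+1+j, m+1) (m+1) = binom(m+j, m) (m+j+1)
      have := Nat.add_one_mul_choose_eq (m + j) m
      have h6 : (((m + j + 1) * (m + j).choose m : ℕ) : ℚ) =
        (((m + j + 1).choose (m + 1) * (m + 1) : ℕ) : ℚ) := by rw [this]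
      unfold b
      have e : m + 1 + j = m + j + 1 := by omega
      rw [e]
      push_cast at h6
      field_simp
      linarith
    have e1 : b m (j + 1) = b m j * ((m : ℚ) + j + 1) / (j + 1) := by
      field_simp; linarith
    have e2 : b n (j + 1) = b n j * ((n : ℚ) + j + 1) / (j + 1) := by
      field_simp; linarith
    have e3 : b' n j = b n j * n / (j + 1) := by field_simp; linarith
    have e4 : b' n (j + 1) = b n (j + 1) * n / (j + 1 + 1) := by
      push_cast at h4
      field_simp; linarith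
    rw [e4, e3, e2, e1, h5]
    push_cast
    field_simp
    ring
  unfold W
  rw [Finset.mul_sum, Finset.mul_sum, ← Finset.sum_sub_distrib]
  rw [Finset.sum_congr rfl fun j _ => hterm j, ← Finset.mul_sum,
    Finset.sum_range_sub (fun j : ℕ => (j : ℚ) * (j + 1) * (b m j * b' n j))]
  have h := b'_eq n n hn
  push_cast
  have : b' n n = b n n * n / (n + 1) := by field_simp; linarith
  rw [this]
  field_simp
  ring

/-- The two forms of the right hand side agree. -/
theorem U_eq_W (n : ℕ) (hn : 1 ≤ n) (m : ℕ) :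
    U n m = (m : ℚ) / n * b n m / b n n * W n m := by
  have hnq : (0 : ℚ) < n := by exact_mod_cast hn
  induction m with
  | zero => unfold U; simp
  | succ m ih =>
    have hW := W_rec n m hn
    have hb := b_succ n m
    have hb' := b'_eq n m hn
    have hbn := b_pos n n
    have hsym : b m n = b n m := by
      unfold b
      rw [add_comm m n, Nat.choose_symm_add]
    rw [hsym] at hW
    rw [U_succ, ih]
    have e1 : b n (m + 1) = b n m * ((n : ℚ) + m + 1) / (m + 1) := by
      field_simp; linarith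
    have e2 : b' n m = b n m * n / (m + 1) := by
      field_simp; linarith
    have hnm : (0 : ℚ) < (n : ℚ) + m + 1 := by positivity
    have e3 : W n (m + 1) = ((n : ℚ) ^ 2 * b n n * b n m / (m + 1) + m * W n m) / ((n : ℚ) + m + 1) := by
      rw [eq_div_iff hnm.ne']; linarith
    rw [e1, e2, e3]
    push_cast
    field_simp
    ring

theorem sum_B (n m : ℕ) (hn : 1 ≤ n) (hm : 1 ≤ m) :
    ∑ k ∈ Icc 1 (min n m), B n k ^ 2 * B m k = T n m / ((n : ℚ) ^ 2 * m) := by
  have hterm : ∀ k ∈ Icc 1 (min n m), B n k ^ 2 * B m k =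
      ((k : ℚ) ^ 3 * c n k ^ 2 * c m k) / ((n : ℚ) ^ 2 * m) := by
    intro k hk
    rw [Finset.mem_Icc] at hk
    have h1 : k ≤ n := by omega
    have h2 : k ≤ m := by omega
    have e1 : ((2 * n).choose (n - k) : ℚ) = c n k := by
      unfold c
      have : 2 * n - (n + k) = n - k := by omega
      rw [← this, Nat.choose_symm (by omega)]
    have e2 : ((2 * m).choose (m - k) : ℚ) = c m k := by
      unfold c
      have : 2 * m - (m + k) = m - k := by omega
      rw [← this, Nat.choose_symm (by omega)]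
    unfold B
    rw [e1, e2]
    have hnq : (n : ℚ) ≠ 0 := by positivity
    have hmq : (m : ℚ) ≠ 0 := by positivity
    field_simp
  rw [Finset.sum_congr rfl hterm, ← Finset.sum_div]
  congr 1
  unfold T
  apply Finset.sum_subset
  · intro k hk
    rw [Finset.mem_Icc] at hk
    rw [Finset.mem_range]
    omega
  · intro k hk hk'
    rw [Finset.mem_range] at hk
    rw [Finset.mem_Icc] at hk'
    rcases Nat.eq_zero_or_pos k with h0 | h0
    · subst h0; simp
    · have : c m k = 0 := by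
        unfold c
        rw [Nat.choose_eq_zero_of_lt (by omega)]; simp
      rw [this]; ring

/-- **The mixed cubic identity** for all `n, m ≥ 1`. -/
theorem result : ∀ n m : ℕ, 1 ≤ n → 1 ≤ m →
    ∑ k ∈ Icc 1 (min n m), B n k ^ 2 * B m k =
      1 / 2 * ((2 * n).choose n : ℚ) ^ 2 * ((2 * m).choose m : ℚ) *
        (1 - ((n : ℚ) + 2 * m) / (min n m : ℕ) * ((n + m).choose n : ℚ)⁻¹ *
          ((n + min n m).choose n : ℚ)⁻¹ *
          ∑ j ∈ range (min n m), ((max n m + j).choose (max n m) : ℚ) *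
            ((n + j).choose (n - 1) : ℚ)) := by
  intro n m hn hm
  rw [sum_B n m hn hm]
  have hT := T_closed n hn m hm
  have hnq : (n : ℚ) ≠ 0 := by positivity
  have hmq : (m : ℚ) ≠ 0 := by positivity
  have hT' : T n m / ((n : ℚ) ^ 2 * m) = 1 / 2 * c n 0 ^ 2 * c m 0 *
      (1 - ((n : ℚ) + 2 * m) / m * (b n m)⁻¹ ^ 2 * U n m) := by
    rw [div_eq_iff (by positivity)]
    linarith
  have ec : ∀ N : ℕ, c N 0 = ((2 * N).choose N : ℚ) := fun N => by unfold c; simp
  rw [hT', ec, ec]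
  congr 1
  rcases le_or_gt m n with h | h
  · have e1 : min n m = m := min_eq_right h
    have e2 : max n m = n := max_eq_left h
    rw [e1, e2]
    unfold U b b'
    ring
  · have e1 : min n m = n := min_eq_left h.le
    have e2 : max n m = m := max_eq_right h.le
    rw [e1, e2]
    rw [U_eq_W n hn m]
    have hb1 := b_pos n m
    have hb2 := b_pos n n
    have e3 : ∑ j ∈ range n, ((m + j).choose m : ℚ) * ((n + j).choose (n - 1) : ℚ) = W n m := rfl
    have e4 : ((n + m).choose n : ℚ) = b n m := rfl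
    have e5 : ((n + n).choose n : ℚ) = b n n := rfl
    rw [e3, e4, e5]
    field_simp

end Pool.Agent.Results.MP_651eca_nt.MixedCubic
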